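import Pool.Agent.helper91.RB.Spec5

/-!
Row rb:VLU: valuations in an extension of number fields.
-/

set_option autoImplicit false

namespace Pool.Agent.RB

open NumberField IsDedekindDomain Module
open scoped nonZeroDivisors Real Classical IsMulCommutative

theorem VLU : VLU_stmt := by
  intro K H _ _ _ _ _
  refine ⟨?_, ?_, ?_, ?_⟩
  · intro P
    have hlies : P.asIdeal.LiesOver (P.under (𝓞 K)).asIdeal := ⟨rfl⟩
    set e := (P.under (𝓞 K)).asIdeal.ramificationIdx' P.asIdeal with he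
    have he0 : e ≠ 0 :=
      Ideal.IsDedekindDomain.ramificationIdx'_ne_zero_of_liesOver P.asIdeal (P.under (𝓞 K)).ne_bot
    have hval : ∀ x : K, P.valuation H (algebraMap K H x) = (P.under (𝓞 K)).valuation K x ^ e :=
      fun x => (HeightOneSpectrum.valuation_liesOver H (P.under (𝓞 K)) P x).symm
    refine ⟨e, Nat.pos_of_ne_zero he0, fun x => ⟨hval x, ?_, ?_, ?_⟩⟩
    · unfold ord
      rw [hval, WithZero.log_pow]
      simp
    · rw [hval]
      exact pow_lt_one_iff_of_nonneg zero_le he0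
    · rw [hval]
      exact pow_eq_one_iff_of_nonneg zero_le he0
  · rintro ⟨p, hp1, hp2⟩
    obtain ⟨P, hP, rfl⟩ := p.exists_ideal_over_prime_of_isIntegral_of_isDomain (S := 𝓞 H) (by simp)
    exact ⟨⟨P, hP, by aesop⟩, rfl⟩
  · intro ζ hζ
    refine ⟨Units.map (algebraMap (𝓞 K) (𝓞 H) : 𝓞 K →* 𝓞 H) ζ, ?_, ?_⟩
    · exact (Units.map (algebraMap (𝓞 K) (𝓞 H) : 𝓞 K →* 𝓞 H)).isOfFinOrder hζ
    · rfl
  · intro F _ _ _ _ _ P
    apply HeightOneSpectrum.ext
    exact Ideal.under_under _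

end Pool.Agent.RB
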